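import Pool.Agent.Y327.XR.F

/-!
# Decay of the planar function `F`
-/

namespace Pool.Agent.Y327.XR

open MeasureTheory Set Filter Topology

noncomputable section

theorem diff_bound {φ φ' : ℝ → ℝ} {p q M : ℝ} (hq : q = p + 1)
    (hφ : ∀ y ∈ Icc p q, HasDerivAt φ (φ' y) y) (hM : ∀ y ∈ Icc p q, |φ' y| ≤ M) :
    |φ q - φ p| ≤ M := by
  have h := (convex_Icc p q).norm_image_sub_le_of_norm_hasDerivWithin_le
    (f := φ) (f' := φ') (C := M) (fun y hy => (hφ y hy).hasDerivWithinAt)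
    (fun y hy => by rw [Real.norm_eq_abs]; exact hM y hy)
    (left_mem_Icc.mpr (by linarith)) (right_mem_Icc.mpr (by linarith))
  rw [Real.norm_eq_abs, Real.norm_eq_abs, hq] at h
  rw [hq]
  simpa using h

/-- Third difference. -/
def D3 (h : ℝ → ℝ) (x : ℝ) : ℝ := h x - 3 * h (x - 1) + 3 * h (x - 2) - h (x - 3)

theorem D3_bound {h h1 h2 h3 : ℝ → ℝ}
    (d1 : ∀ y, 0 < y → HasDerivAt h (h1 y) y) (d2 : ∀ y, 0 < y → HasDerivAt h1 (h2 y) y)
    (d3 : ∀ y, 0 < y → HasDerivAt h2 (h3 y) y) (b3 : ∀ y, 0 < y → |h3 y| ≤ 2 / y ^ 2)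
    (b0 : ∀ y, |h y| ≤ max y 0) {x : ℝ} (hx : 0 ≤ x) :
    (1 + x) ^ 2 * |D3 h x| ≤ 500 := by
  rcases le_or_gt x 4 with hx4 | hx4
  · have e0 := b0 x
    have e1 := b0 (x - 1)
    have e2 := b0 (x - 2)
    have e3 := b0 (x - 3)
    have m0 : max x 0 ≤ 4 := max_le hx4 (by norm_num)
    have m1 : max (x - 1) 0 ≤ 3 := max_le (by linarith) (by norm_num)
    have m2 : max (x - 2) 0 ≤ 2 := max_le (by linarith) (by norm_num)
    have m3 : max (x - 3) 0 ≤ 1 := max_le (by linarith) (by norm_num)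
    rw [abs_le] at e0 e1 e2 e3
    have hD : |D3 h x| ≤ 20 := by
      unfold D3
      rw [abs_le]
      constructor <;> linarith [e0.1, e0.2, e1.1, e1.2, e2.1, e2.2, e3.1, e3.2]
    have hq : (1 + x) ^ 2 ≤ 25 := by nlinarith
    calc (1 + x) ^ 2 * |D3 h x| ≤ 25 * 20 := by gcongr
      _ = 500 := by norm_num
  · set M : ℝ := 2 / (x - 3) ^ 2 with hM
    have hx3 : 0 < x - 3 := by linarith
    have s0 : ∀ y, x - 3 ≤ y → |h3 y| ≤ M := by
      intro y hy
      refine (b3 y (by linarith)).trans ?_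
      rw [hM]
      gcongr
    have s1 : ∀ y, x - 2 ≤ y → |h2 y - h2 (y - 1)| ≤ M := by
      intro y hy
      exact diff_bound (by ring) (fun z hz => d3 z (by linarith [hz.1]))
        (fun z hz => s0 z (by linarith [hz.1]))
    have s2 : ∀ y, x - 1 ≤ y → |(h1 y - h1 (y - 1)) - (h1 (y - 1) - h1 (y - 1 - 1))| ≤ M := by
      intro y hy
      exact diff_bound (φ := fun z => h1 z - h1 (z - 1)) (φ' := fun z => h2 z - h2 (z - 1))
        (p := y - 1) (by ring)
        (fun z hz => (d2 z (by linarith [hz.1])).sub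
          ((d2 (z - 1) (by linarith [hz.1])).comp_sub_const z 1))
        (fun z hz => s1 z (by linarith [hz.1]))
    have s3 : |((h x - h (x - 1)) - (h (x - 1) - h (x - 1 - 1))) -
        ((h (x - 1) - h (x - 1 - 1)) - (h (x - 1 - 1) - h (x - 1 - 1 - 1)))| ≤ M := by
      exact diff_bound (φ := fun z => (h z - h (z - 1)) - (h (z - 1) - h (z - 1 - 1)))
        (φ' := fun z => (h1 z - h1 (z - 1)) - (h1 (z - 1) - h1 (z - 1 - 1)))
        (p := x - 1) (by ring)
        (fun z hz => ((d1 z (by linarith [hz.1])).sub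
          ((d1 (z - 1) (by linarith [hz.1])).comp_sub_const z 1)).sub
          (((d1 (z - 1) (by linarith [hz.1])).comp_sub_const z 1).sub
            (((d1 (z - 1 - 1) (by linarith [hz.1])).comp_sub_const (z - 1) 1).comp_sub_const z 1)))
        (fun z hz => s2 z (by linarith [hz.1]))
    have hD : D3 h x = ((h x - h (x - 1)) - (h (x - 1) - h (x - 1 - 1))) -
        ((h (x - 1) - h (x - 1 - 1)) - (h (x - 1 - 1) - h (x - 1 - 1 - 1))) := by
      unfold D3
      rw [show x - 1 - 1 - 1 = x - 3 by ring, show x - 1 - 1 = x - 2 by ring]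
      ring
    rw [← hD] at s3
    have hq : (1 + x) ^ 2 ≤ 25 * (x - 3) ^ 2 := by nlinarith
    calc (1 + x) ^ 2 * |D3 h x| ≤ (25 * (x - 3) ^ 2) * M := by gcongr
      _ = 50 := by rw [hM]; field_simp; norm_num
      _ ≤ 500 := by norm_num

/-- `A x = x_+ cos (log x)`. -/
def A (x : ℝ) : ℝ := max x 0 * Real.cos (Real.log x)
/-- `B x = x_+ sin (log x)`. -/
def B (x : ℝ) : ℝ := max x 0 * Real.sin (Real.log x)
/-- `g x = x_+`. -/
def g (x : ℝ) : ℝ := max x 0

theorem D3A_bound {x : ℝ} (hx : 0 ≤ x) : (1 + x) ^ 2 * |D3 A x| ≤ 500 := by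
  refine D3_bound (h := A) (h1 := fun y => Real.cos (Real.log y) - Real.sin (Real.log y))
    (h2 := fun y => -(Real.sin (Real.log y) + Real.cos (Real.log y)) / y)
    (h3 := fun y => 2 * Real.sin (Real.log y) / y ^ 2) ?_ ?_ ?_ ?_ ?_ hx
  · intro y hy
    have hl := Real.hasDerivAt_log hy.ne'
    have h1 : HasDerivAt (fun y : ℝ => y * Real.cos (Real.log y))
        (1 * Real.cos (Real.log y) + y * (-Real.sin (Real.log y) * y⁻¹)) y :=
      (hasDerivAt_id y).mul hl.cos
    have h2 : HasDerivAt A (1 * Real.cos (Real.log y) + y * (-Real.sin (Real.log y) * y⁻¹)) y := by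
      refine h1.congr_of_eventuallyEq ?_
      filter_upwards [eventually_gt_nhds hy] with z hz
      unfold A
      rw [max_eq_left hz.le]
    refine h2.congr_deriv ?_
    field_simp
    ring
  · intro y hy
    have hl := Real.hasDerivAt_log hy.ne'
    have h1 : HasDerivAt (fun y : ℝ => Real.cos (Real.log y) - Real.sin (Real.log y))
        (-Real.sin (Real.log y) * y⁻¹ - Real.cos (Real.log y) * y⁻¹) y := hl.cos.sub hl.sin
    refine h1.congr_deriv ?_
    field_simp
    ring
  · intro y hy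
    have hl := Real.hasDerivAt_log hy.ne'
    have h1 : HasDerivAt (fun y : ℝ => -(Real.sin (Real.log y) + Real.cos (Real.log y)) / y)
        ((-(Real.cos (Real.log y) * y⁻¹ + -Real.sin (Real.log y) * y⁻¹) * y -
          -(Real.sin (Real.log y) + Real.cos (Real.log y)) * 1) / y ^ 2) y :=
      ((hl.sin.add hl.cos).neg).div (hasDerivAt_id y) hy.ne'
    refine h1.congr_deriv ?_
    field_simp
    ring
  · intro y hy
    rw [abs_div, abs_mul, abs_of_pos (by norm_num : (0 : ℝ) < 2), abs_of_pos (pow_pos hy 2)]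
    gcongr
    linarith [Real.abs_sin_le_one (Real.log y)]
  · intro y
    unfold A
    rw [abs_mul, abs_of_nonneg (le_max_right _ _)]
    exact mul_le_of_le_one_right (le_max_right _ _) (Real.abs_cos_le_one _)

theorem D3B_bound {x : ℝ} (hx : 0 ≤ x) : (1 + x) ^ 2 * |D3 B x| ≤ 500 := by
  refine D3_bound (h := B) (h1 := fun y => Real.sin (Real.log y) + Real.cos (Real.log y))
    (h2 := fun y => (Real.cos (Real.log y) - Real.sin (Real.log y)) / y)
    (h3 := fun y => -(2 * Real.cos (Real.log y)) / y ^ 2) ?_ ?_ ?_ ?_ ?_ hx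
  · intro y hy
    have hl := Real.hasDerivAt_log hy.ne'
    have h1 : HasDerivAt (fun y : ℝ => y * Real.sin (Real.log y))
        (1 * Real.sin (Real.log y) + y * (Real.cos (Real.log y) * y⁻¹)) y :=
      (hasDerivAt_id y).mul hl.sin
    have h2 : HasDerivAt B (1 * Real.sin (Real.log y) + y * (Real.cos (Real.log y) * y⁻¹)) y := by
      refine h1.congr_of_eventuallyEq ?_
      filter_upwards [eventually_gt_nhds hy] with z hz
      unfold B
      rw [max_eq_left hz.le]
    refine h2.congr_deriv ?_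
    field_simp
  · intro y hy
    have hl := Real.hasDerivAt_log hy.ne'
    have h1 : HasDerivAt (fun y : ℝ => Real.sin (Real.log y) + Real.cos (Real.log y))
        (Real.cos (Real.log y) * y⁻¹ + -Real.sin (Real.log y) * y⁻¹) y := hl.sin.add hl.cos
    refine h1.congr_deriv ?_
    field_simp
    ring
  · intro y hy
    have hl := Real.hasDerivAt_log hy.ne'
    have h1 : HasDerivAt (fun y : ℝ => (Real.cos (Real.log y) - Real.sin (Real.log y)) / y)
        (((-Real.sin (Real.log y) * y⁻¹ - Real.cos (Real.log y) * y⁻¹) * y -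
          (Real.cos (Real.log y) - Real.sin (Real.log y)) * 1) / y ^ 2) y :=
      (hl.cos.sub hl.sin).div (hasDerivAt_id y) hy.ne'
    refine h1.congr_deriv ?_
    field_simp
    ring
  · intro y hy
    rw [abs_div, abs_neg, abs_mul, abs_of_pos (by norm_num : (0 : ℝ) < 2),
      abs_of_pos (pow_pos hy 2)]
    gcongr
    linarith [Real.abs_cos_le_one (Real.log y)]
  · intro y
    unfold B
    rw [abs_mul, abs_of_nonneg (le_max_right _ _)]
    exact mul_le_of_le_one_right (le_max_right _ _) (Real.abs_sin_le_one _)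

theorem D3g_bound {x : ℝ} (hx : 0 ≤ x) : (1 + x) ^ 2 * |D3 g x| ≤ 500 := by
  refine D3_bound (h := g) (h1 := fun y => 1) (h2 := fun y => 0) (h3 := fun y => 0)
    ?_ ?_ ?_ ?_ ?_ hx
  · intro y hy
    refine (hasDerivAt_id y).congr_of_eventuallyEq ?_
    filter_upwards [eventually_gt_nhds hy] with z hz
    unfold g
    rw [max_eq_left hz.le, id]
  · intro y _
    exact hasDerivAt_const y 1
  · intro y _
    exact hasDerivAt_const y 0
  · intro y hy
    rw [abs_zero]
    positivity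
  · intro y
    unfold g
    rw [abs_of_nonneg (le_max_right _ _)]

theorem Th_eq (x y : ℝ) : Th x y = A x * A y + B x * B y - C0 * (g x * g y) := by
  unfold Th A B g
  rw [Real.cos_sub]
  ring

theorem F_eq (x y : ℝ) : F x y = D3 A x * D3 A y + D3 B x * D3 B y - C0 * (D3 g x * D3 g y) := by
  unfold F D3
  simp only [Fin.sum_univ_four, cf, Th_eq]
  simp
  ring

/-- The decay bound for `F`. -/
theorem F_bound {x y : ℝ} (hx : 0 ≤ x) (hy : 0 ≤ y) :
    (1 + x + y) ^ 2 * |F x y| ≤ 250000 * (2 + C0) := by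
  have hC := one_lt_C0
  have h1 : (1 + x + y) ^ 2 ≤ (1 + x) ^ 2 * (1 + y) ^ 2 := by
    rw [← mul_pow]
    apply pow_le_pow_left₀ (by positivity)
    nlinarith
  have key : ∀ {p q : ℝ}, (1 + x) ^ 2 * |p| ≤ 500 → (1 + y) ^ 2 * |q| ≤ 500 →
      (1 + x) ^ 2 * (1 + y) ^ 2 * |p * q| ≤ 250000 := by
    intro p q hp hq
    rw [abs_mul]
    calc (1 + x) ^ 2 * (1 + y) ^ 2 * (|p| * |q|) = ((1 + x) ^ 2 * |p|) * ((1 + y) ^ 2 * |q|) := by
          ring
      _ ≤ 500 * 500 := by gcongr
      _ = 250000 := by norm_num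
  have kA := key (D3A_bound hx) (D3A_bound hy)
  have kB := key (D3B_bound hx) (D3B_bound hy)
  have kg := key (D3g_bound hx) (D3g_bound hy)
  have h2 : |F x y| ≤ |D3 A x * D3 A y| + |D3 B x * D3 B y| + C0 * |D3 g x * D3 g y| := by
    rw [F_eq]
    refine (abs_sub _ _).trans ?_
    refine add_le_add (abs_add_le _ _) ?_
    rw [abs_mul, abs_of_pos (by linarith : 0 < C0)]
  calc (1 + x + y) ^ 2 * |F x y| ≤ ((1 + x) ^ 2 * (1 + y) ^ 2) *
        (|D3 A x * D3 A y| + |D3 B x * D3 B y| + C0 * |D3 g x * D3 g y|) := by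
        gcongr
    _ = (1 + x) ^ 2 * (1 + y) ^ 2 * |D3 A x * D3 A y| +
        (1 + x) ^ 2 * (1 + y) ^ 2 * |D3 B x * D3 B y| +
        C0 * ((1 + x) ^ 2 * (1 + y) ^ 2 * |D3 g x * D3 g y|) := by ring
    _ ≤ 250000 + 250000 + C0 * 250000 := by gcongr
    _ = 250000 * (2 + C0) := by ring

end

end Pool.Agent.Y327.XR
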