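import Pool.Agent.Y327.XR.Xi

/-!
# The planar function `F`
-/

namespace Pool.Agent.Y327.XR

open MeasureTheory Set Filter Topology

noncomputable section

/-- The coefficients of a third difference. -/
def cf : Fin 4 → ℝ := ![1, -3, 3, -1]

/-- `Th x y = x_+ y_+ (cos (log x - log y) - C0)`. -/
def Th (x y : ℝ) : ℝ := max x 0 * max y 0 * (Real.cos (Real.log x - Real.log y) - C0)

/-- The third difference of `Th` in both variables. -/
def F (x y : ℝ) : ℝ := ∑ i : Fin 4, ∑ j : Fin 4, cf i * cf j * Th (x - (i : ℕ)) (y - (j : ℕ))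

theorem Th_eq_zero_left {x y : ℝ} (h : x ≤ 0) : Th x y = 0 := by
  unfold Th; rw [max_eq_right h]; ring

theorem Th_eq_zero_right {x y : ℝ} (h : y ≤ 0) : Th x y = 0 := by
  unfold Th; rw [max_eq_right h]; ring

theorem F_eq_zero_left {x y : ℝ} (h : x ≤ 0) : F x y = 0 := by
  unfold F
  refine Finset.sum_eq_zero fun i _ => Finset.sum_eq_zero fun j _ => ?_
  rw [Th_eq_zero_left (by have : (0 : ℝ) ≤ ((i : ℕ) : ℝ) := by positivity
                          linarith)]
  ring

theorem F_eq_zero_right {x y : ℝ} (h : y ≤ 0) : F x y = 0 := by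
  unfold F
  refine Finset.sum_eq_zero fun i _ => Finset.sum_eq_zero fun j _ => ?_
  rw [Th_eq_zero_right (by have : (0 : ℝ) ≤ ((j : ℕ) : ℝ) := by positivity
                           linarith)]
  ring

theorem F_neg {x y : ℝ} (hx : 0 < x) (hx1 : x < 1) (hy : 0 < y) (hy1 : y < 1) : F x y < 0 := by
  have h : F x y = Th x y := by
    unfold F
    rw [Finset.sum_eq_single 0, Finset.sum_eq_single 0]
    · simp [cf]
    · intro j _ hj
      rw [Th_eq_zero_right, mul_zero]
      have : (1 : ℝ) ≤ ((j : ℕ) : ℝ) := by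
        exact_mod_cast Nat.one_le_iff_ne_zero.mpr (fun h => hj (Fin.ext h))
      linarith
    · simp
    · intro i _ hi
      refine Finset.sum_eq_zero fun j _ => ?_
      rw [Th_eq_zero_left, mul_zero]
      have : (1 : ℝ) ≤ ((i : ℕ) : ℝ) := by
        exact_mod_cast Nat.one_le_iff_ne_zero.mpr (fun h => hi (Fin.ext h))
      linarith
    · simp
  rw [h]
  unfold Th
  rw [max_eq_left hx.le, max_eq_left hy.le]
  have h1 := Real.cos_le_one (Real.log x - Real.log y)
  have h2 := one_lt_C0
  exact mul_neg_of_pos_of_neg (mul_pos hx hy) (by linarith)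

theorem measurable_Th : Measurable fun p : ℝ × ℝ => Th p.1 p.2 := by
  unfold Th
  have h1 : Measurable (fun p : ℝ × ℝ => Real.log p.1) := Real.measurable_log.comp measurable_fst
  have h2 : Measurable (fun p : ℝ × ℝ => Real.log p.2) := Real.measurable_log.comp measurable_snd
  have h3 : Measurable (fun p : ℝ × ℝ => Real.cos (Real.log p.1 - Real.log p.2)) :=
    Real.measurable_cos.comp (h1.sub h2)
  exact ((measurable_fst.max measurable_const).mul (measurable_snd.max measurable_const)).mul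
    (h3.sub_const C0)

theorem measurable_F : Measurable fun p : ℝ × ℝ => F p.1 p.2 := by
  unfold F
  refine Finset.measurable_sum _ fun i _ => Finset.measurable_sum _ fun j _ => ?_
  exact (measurable_Th.comp ((measurable_fst.sub_const _).prodMk
    (measurable_snd.sub_const _))).const_mul _

/-! ### The line integrals vanish -/

theorem Th_line (k : ℤ) (x0 y0 s : ℝ) (i j : ℝ) :
    Th (x0 + s - i) (y0 + Real.exp (2 * Real.pi * k) * s - j) =
      Real.exp (2 * Real.pi * k) *
        T (i - x0) ((j - y0) / Real.exp (2 * Real.pi * k)) s := by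
  set t := Real.exp (2 * Real.pi * k) with ht
  have htpos : 0 < t := Real.exp_pos _
  have e1 : x0 + s - i = s - (i - x0) := by ring
  have e2 : y0 + t * s - j = t * (s - (j - y0) / t) := by field_simp; ring
  rw [e1, e2]
  set w := s - (j - y0) / t with hw
  rcases le_or_gt w 0 with h | h
  · rw [Th_eq_zero_right (mul_nonpos_of_nonneg_of_nonpos htpos.le h)]
    unfold T
    rw [← hw, max_eq_right h]
    ring
  · unfold Th T
    rw [← hw, max_eq_left h.le, max_eq_left (mul_pos htpos h).le,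
      Real.log_mul htpos.ne' h.ne', ht, Real.log_exp]
    have e3 : Real.log (s - (i - x0)) - (2 * Real.pi * k + Real.log w) =
        Real.log (s - (i - x0)) - Real.log w - k * (2 * Real.pi) := by ring
    rw [e3, Real.cos_sub_int_mul_two_pi]
    ring

theorem sum_Pl (x0 y0 t S : ℝ) :
    ∑ i : Fin 4, ∑ j : Fin 4, cf i * cf j *
      Pl (((i : ℕ) : ℝ) - x0) ((((j : ℕ) : ℝ) - y0) / t) S = 0 := by
  simp only [Fin.sum_univ_four, cf, Pl]
  simp
  ring

theorem F_line (k : ℤ) {x0 y0 : ℝ} (h : x0 ≤ 0 ∨ y0 ≤ 0) :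
    ∫ s in Ioi (0 : ℝ), F (x0 + s) (y0 + Real.exp (2 * Real.pi * k) * s) = 0 := by
  set t := Real.exp (2 * Real.pi * k) with ht
  have htpos : 0 < t := Real.exp_pos _
  by_cases hint : IntegrableOn (fun s => F (x0 + s) (y0 + t * s)) (Ioi 0)
  swap
  · exact integral_undef hint
  have h1 := intervalIntegral_tendsto_integral_Ioi 0 hint tendsto_id
  refine tendsto_nhds_unique h1 ?_
  have hmax : ∀ i j : Fin 4, 0 ≤ max (((i : ℕ) : ℝ) - x0) ((((j : ℕ) : ℝ) - y0) / t) := by
    intro i j
    have hi : (0 : ℝ) ≤ ((i : ℕ) : ℝ) := by positivity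
    have hj : (0 : ℝ) ≤ ((j : ℕ) : ℝ) := by positivity
    rcases h with h | h
    · exact le_max_of_le_left (by linarith)
    · exact le_max_of_le_right (div_nonneg (by linarith) htpos.le)
  have hterm : Tendsto (fun S => ∑ i : Fin 4, ∑ j : Fin 4, cf i * cf j *
      (t * ((∫ s in (0 : ℝ)..S, T (((i : ℕ) : ℝ) - x0) ((((j : ℕ) : ℝ) - y0) / t) s) -
        Pl (((i : ℕ) : ℝ) - x0) ((((j : ℕ) : ℝ) - y0) / t) S))) atTop (𝓝 0) := by
    have h0 : ∑ i : Fin 4, ∑ j : Fin 4, cf i * cf j * (t * 0) = 0 := by simp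
    have h2 := tendsto_finsetSum (Finset.univ : Finset (Fin 4)) fun i _ =>
      tendsto_finsetSum (Finset.univ : Finset (Fin 4)) fun j _ =>
        ((tendsto_T (hmax i j)).const_mul t).const_mul (cf i * cf j)
    rw [h0] at h2
    exact h2
  refine hterm.congr fun S => ?_
  have e1 : ∀ s, F (x0 + s) (y0 + t * s) = ∑ i : Fin 4, ∑ j : Fin 4, cf i * cf j *
      (t * T (((i : ℕ) : ℝ) - x0) ((((j : ℕ) : ℝ) - y0) / t) s) := by
    intro s
    unfold F
    refine Finset.sum_congr rfl fun i _ => Finset.sum_congr rfl fun j _ => ?_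
    rw [ht, Th_line k x0 y0 s]
  have e2 : ∫ s in (0 : ℝ)..S, F (x0 + s) (y0 + t * s) =
      ∑ i : Fin 4, ∑ j : Fin 4, cf i * cf j *
      (t * ∫ s in (0 : ℝ)..S, T (((i : ℕ) : ℝ) - x0) ((((j : ℕ) : ℝ) - y0) / t) s) := by
    simp_rw [e1]
    rw [intervalIntegral.integral_finsetSum]
    · refine Finset.sum_congr rfl fun i _ => ?_
      rw [intervalIntegral.integral_finsetSum]
      · refine Finset.sum_congr rfl fun j _ => ?_
        rw [intervalIntegral.integral_const_mul, intervalIntegral.integral_const_mul]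
      · intro j _
        exact ((intervalIntegrable_T _ _ _ _).const_mul t).const_mul _
    · intro i _
      have h3 := IntervalIntegrable.sum (μ := volume) (a := 0) (b := S)
        (Finset.univ : Finset (Fin 4)) (f := fun j s => cf i * cf j *
          (t * T (((i : ℕ) : ℝ) - x0) ((((j : ℕ) : ℝ) - y0) / t) s)) fun j _ =>
            ((intervalIntegrable_T _ _ _ _).const_mul t).const_mul _
      refine h3.congr fun s _ => ?_
      simp only [Finset.sum_apply]
  rw [id, e2]
  have e3 := sum_Pl x0 y0 t S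
  have e4 : ∑ i : Fin 4, ∑ j : Fin 4, cf i * cf j *
      (t * ((∫ s in (0 : ℝ)..S, T (((i : ℕ) : ℝ) - x0) ((((j : ℕ) : ℝ) - y0) / t) s) -
        Pl (((i : ℕ) : ℝ) - x0) ((((j : ℕ) : ℝ) - y0) / t) S)) =
      ∑ i : Fin 4, ∑ j : Fin 4, cf i * cf j *
      (t * ∫ s in (0 : ℝ)..S, T (((i : ℕ) : ℝ) - x0) ((((j : ℕ) : ℝ) - y0) / t) s) -
      t * ∑ i : Fin 4, ∑ j : Fin 4, cf i * cf j *
        Pl (((i : ℕ) : ℝ) - x0) ((((j : ℕ) : ℝ) - y0) / t) S := by
    rw [Finset.mul_sum, ← Finset.sum_sub_distrib]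
    refine Finset.sum_congr rfl fun i _ => ?_
    rw [Finset.mul_sum, ← Finset.sum_sub_distrib]
    refine Finset.sum_congr rfl fun j _ => ?_
    ring
  rw [e4, e3]
  ring

end

end Pool.Agent.Y327.XR
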