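import Mathlib

/-!
# The profile `G` and the constant `C0`
-/

namespace Pool.Agent.Y327.XR

open MeasureTheory Set Filter Topology

noncomputable section

/-- `G(r) = r (r+1) (cos (log (r/(r+1))) - 1) + 1/2`. -/
def G (r : ℝ) : ℝ := r * (r + 1) * (Real.cos (Real.log r - Real.log (r + 1)) - 1) + 1 / 2

theorem log_bounds {r : ℝ} (hr : 0 < r) :
    2 / (2 * r + 1) ≤ Real.log (r + 1) - Real.log r ∧
      r * (r + 1) * (Real.log (r + 1) - Real.log r) ^ 2 ≤ 1 := by
  have h1 : Real.log (r + 1) - Real.log r = Real.log (1 + 1 / r) := by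
    rw [← Real.log_div (by positivity) hr.ne']
    congr 1
    field_simp
  constructor
  · have h := Real.le_log_one_add_of_nonneg (x := 1 / r) (by positivity)
    rw [h1]
    refine le_trans (le_of_eq ?_) h
    field_simp
    ring
  · set L := Real.log (r + 1) - Real.log r with hL
    have hLpos : 0 ≤ L := by
      rw [hL]
      have := Real.log_le_log hr (by linarith : r ≤ r + 1)
      linarith
    have h2 : L / 2 ≤ Real.sinh (L / 2) := Real.self_le_sinh_iff.mpr (by linarith)
    have h3 : Real.sinh (L / 2) ^ 2 = (Real.cosh L - 1) / 2 := by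
      have h := Real.cosh_two_mul (L / 2)
      have h' := Real.cosh_sq (L / 2)
      rw [show 2 * (L / 2) = L by ring] at h
      rw [h]
      linarith
    have h4 : Real.cosh L = ((r + 1) / r + r / (r + 1)) / 2 := by
      have e1 : Real.exp L = (r + 1) / r := by
        rw [hL, Real.exp_sub, Real.exp_log (by positivity), Real.exp_log hr]
      have e2 : Real.exp (-L) = r / (r + 1) := by
        rw [Real.exp_neg, e1, inv_div]
      rw [Real.cosh_eq, e1, e2]
    have h5 : r * (r + 1) * (4 * Real.sinh (L / 2) ^ 2) = 1 := by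
      rw [h3, h4]
      field_simp
      ring
    have h6 : L ^ 2 ≤ 4 * Real.sinh (L / 2) ^ 2 := by
      have h7 : (L / 2) ^ 2 ≤ Real.sinh (L / 2) ^ 2 := by
        apply pow_le_pow_left₀ (by linarith) h2
      linarith
    calc r * (r + 1) * L ^ 2 ≤ r * (r + 1) * (4 * Real.sinh (L / 2) ^ 2) := by
          gcongr
      _ = 1 := h5

theorem G_nonneg {r : ℝ} (hr : 0 < r) : 0 ≤ G r := by
  obtain ⟨-, h⟩ := log_bounds hr
  have h1 := Real.one_sub_sq_div_two_le_cos (x := Real.log r - Real.log (r + 1))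
  have h2 : r * (r + 1) * (Real.cos (Real.log r - Real.log (r + 1)) - 1) ≥
      r * (r + 1) * (-((Real.log r - Real.log (r + 1)) ^ 2 / 2)) := by
    apply mul_le_mul_of_nonneg_left (by linarith) (by positivity)
  have h3 : (Real.log r - Real.log (r + 1)) ^ 2 = (Real.log (r + 1) - Real.log r) ^ 2 := by ring
  rw [h3] at h2
  unfold G
  nlinarith

theorem G_le_half {r : ℝ} (hr : 0 < r) : G r ≤ 1 / 2 := by
  have h1 := Real.cos_le_one (Real.log r - Real.log (r + 1))
  have h2 : r * (r + 1) * (Real.cos (Real.log r - Real.log (r + 1)) - 1) ≤ 0 :=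
    mul_nonpos_of_nonneg_of_nonpos (by positivity) (by linarith)
  unfold G
  linarith

theorem G_le {r : ℝ} (hr : 0 < r) : G r ≤ 2 * (1 + r ^ 2)⁻¹ := by
  rcases le_or_gt r 1 with h | h
  · refine (G_le_half hr).trans ?_
    rw [← div_eq_mul_inv, le_div_iff₀ (by positivity)]
    nlinarith
  · obtain ⟨hlow, hup⟩ := log_bounds hr
    set L := Real.log (r + 1) - Real.log r with hL
    have hc : Real.cos (Real.log r - Real.log (r + 1)) = Real.cos L := by
      rw [← Real.cos_neg]; congr 1; rw [hL]; ring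
    have hLpos : 0 ≤ L := le_trans (by positivity) hlow
    have hL2 : L ^ 2 ≤ 1 / r ^ 2 := by
      rw [le_div_iff₀ (by positivity)]
      have : L ^ 2 * r ^ 2 ≤ r * (r + 1) * L ^ 2 := by nlinarith [sq_nonneg L]
      linarith
    have hL1 : L ≤ 1 := by
      have : L ^ 2 ≤ 1 := hL2.trans (by rw [div_le_one (by positivity)]; nlinarith)
      nlinarith
    have hb := Real.cos_bound (x := L) (by rw [abs_of_nonneg hLpos]; exact hL1)
    rw [abs_of_nonneg hLpos] at hb
    have hb2 := (abs_le.mp hb).2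
    have h4 : L ^ 4 ≤ L ^ 2 * (1 / r ^ 2) := by
      have : L ^ 4 = L ^ 2 * L ^ 2 := by ring
      rw [this]
      exact mul_le_mul_of_nonneg_left hL2 (by positivity)
    have h5 : r * (r + 1) * L ^ 4 ≤ 1 / r ^ 2 := by
      calc r * (r + 1) * L ^ 4 ≤ r * (r + 1) * (L ^ 2 * (1 / r ^ 2)) := by
            exact mul_le_mul_of_nonneg_left h4 (by positivity)
        _ = (r * (r + 1) * L ^ 2) * (1 / r ^ 2) := by ring
        _ ≤ 1 * (1 / r ^ 2) := by
            exact mul_le_mul_of_nonneg_right hup (by positivity)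
        _ = 1 / r ^ 2 := by ring
    have h6 : 1 - 1 / (2 * r + 1) ^ 2 ≤ r * (r + 1) * L ^ 2 := by
      have h7 : (2 / (2 * r + 1)) ^ 2 ≤ L ^ 2 := pow_le_pow_left₀ (by positivity) hlow 2
      calc 1 - 1 / (2 * r + 1) ^ 2 = r * (r + 1) * (2 / (2 * r + 1)) ^ 2 := by
            field_simp
            ring
        _ ≤ r * (r + 1) * L ^ 2 := mul_le_mul_of_nonneg_left h7 (by positivity)
    have h8 : r * (r + 1) * (Real.cos L - 1) ≤
        r * (r + 1) * (-(L ^ 2 / 2) + L ^ 4 * (5 / 96)) := by
      apply mul_le_mul_of_nonneg_left _ (by positivity)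
      linarith
    have h9 : 1 / (2 * r + 1) ^ 2 ≤ 1 / r ^ 2 := by
      apply one_div_le_one_div_of_le (by positivity)
      nlinarith
    have h10 : G r ≤ 1 / r ^ 2 := by
      unfold G
      rw [hc]
      nlinarith
    refine h10.trans ?_
    rw [← div_eq_mul_inv, div_le_div_iff₀ (by positivity) (by positivity)]
    nlinarith

theorem measurable_G : Measurable G := by
  unfold G
  have h1 : Measurable (fun r : ℝ => Real.log r) := Real.measurable_log
  have h2 : Measurable (fun r : ℝ => Real.log (r + 1)) := h1.comp (by fun_prop)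
  have h3 : Measurable (fun r : ℝ => Real.cos (Real.log r - Real.log (r + 1))) :=
    Real.measurable_cos.comp (h1.sub h2)
  exact (((measurable_id.mul (measurable_id.add_const 1)).mul (h3.sub_const 1)).add_const _)

theorem integrableOn_G : IntegrableOn G (Ioi 0) := by
  have h : IntegrableOn (fun r : ℝ => 2 * (1 + r ^ 2)⁻¹) (Ioi 0) :=
    (integrable_inv_one_add_sq.const_mul 2).integrableOn
  refine Integrable.mono' h measurable_G.aestronglyMeasurable ?_
  refine (ae_restrict_iff' measurableSet_Ioi).mpr (Eventually.of_forall fun r hr => ?_)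
  rw [Real.norm_eq_abs, abs_of_nonneg (G_nonneg hr)]
  exact G_le hr

/-- `n0 = ∫_0^∞ G`. -/
def n0 : ℝ := ∫ r in Ioi 0, G r

theorem n0_nonneg : 0 ≤ n0 :=
  setIntegral_nonneg measurableSet_Ioi fun _ hr => G_nonneg hr

/-- The constant `C0 = 4 + 12 n0` (numerically `2 π coth π`). -/
def C0 : ℝ := 4 + 12 * n0

theorem one_lt_C0 : 1 < C0 := by
  have := n0_nonneg
  unfold C0
  linarith

theorem tendsto_G {d : ℝ} (hd : 0 < d) :
    Tendsto (fun R => ∫ r in (0 : ℝ)..(R / d), G r) atTop (𝓝 n0) := by
  have h1 : Tendsto (fun R : ℝ => R / d) atTop atTop := tendsto_id.atTop_div_const hd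
  exact (intervalIntegral_tendsto_integral_Ioi 0 integrableOn_G tendsto_id).comp h1

end

end Pool.Agent.Y327.XR
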