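import Pool.Agent.Y327.XR.Bound

/-!
# Transfer to the unit simplex of `ℝ^(m+2)`
-/

namespace Pool.Agent.Y327.XR

open MeasureTheory Set Filter Topology

noncomputable section

/-- Euclidean space of dimension `m + 2`. -/
abbrev EE (m : ℕ) := EuclideanSpace ℝ (Fin (m + 2))

variable {m : ℕ}

/-- `Z = 1 - Σ X_i`. -/
def Zf (X : EE m) : ℝ := 1 - ∑ i, X i

/-- The region on which `f` is not set to zero. -/
def ok (X : EE m) : Prop := 0 < Zf X ∧ ∀ i : Fin m, 0 ≤ X i.succ.succ ∧ X i.succ.succ ≤ Zf X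

open Classical in
/-- The counterexample. -/
def ff (X : EE m) : ℝ := if ok X then (Zf X)⁻¹ ^ 2 * F (X 0 / Zf X) (X 1 / Zf X) else 0

theorem sum_split (X : EE m) : ∑ i, X i = X 0 + X 1 + ∑ i : Fin m, X i.succ.succ := by
  rw [Fin.sum_univ_succ, Fin.sum_univ_succ]
  simp only [Fin.succ_zero_eq_one]
  ring

theorem coords_nonneg {X : EE m} (h : ff X ≠ 0) : 0 < Zf X ∧ ∀ i, 0 ≤ X i := by
  unfold ff at h
  split_ifs at h with hok
  · refine ⟨hok.1, ?_⟩
    have h0 : 0 < X 0 := by
      by_contra h0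
      push Not at h0
      apply h
      rw [F_eq_zero_left (div_nonpos_of_nonpos_of_nonneg h0 hok.1.le), mul_zero]
    have h1 : 0 < X 1 := by
      by_contra h1
      push Not at h1
      apply h
      rw [F_eq_zero_right (div_nonpos_of_nonpos_of_nonneg h1 hok.1.le), mul_zero]
    intro i
    refine Fin.cases h0.le (fun j => ?_) i
    refine Fin.cases h1.le (fun k => ?_) j
    exact (hok.2 k).1
  · exact absurd rfl h

theorem ff_support {X : EE m} (h : 1 < ‖X‖) : ff X = 0 := by
  by_contra hne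
  obtain ⟨hZ, hX⟩ := coords_nonneg hne
  have hsum : ∑ i, X i < 1 := by unfold Zf at hZ; linarith
  have hle : ∀ i, X i ≤ 1 := fun i =>
    (Finset.single_le_sum (fun j _ => hX j) (Finset.mem_univ i)).trans hsum.le
  have h2 : ‖X‖ ^ 2 ≤ ∑ i, X i := by
    rw [EuclideanSpace.norm_sq_eq]
    refine Finset.sum_le_sum fun i _ => ?_
    rw [Real.norm_eq_abs, sq_abs]
    nlinarith [hX i, hle i]
  nlinarith

/-- A bound for `|ff|`. -/
def MM (m : ℕ) : ℝ := 250000 * (2 + C0) * (m + 1) ^ 2

theorem MM_pos (m : ℕ) : 0 < MM m := by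
  have := one_lt_C0
  unfold MM
  positivity

theorem ff_bound (X : EE m) : |ff X| ≤ MM m := by
  by_cases hne : ff X = 0
  · rw [hne, abs_zero]
    exact (MM_pos m).le
  · obtain ⟨hZ, hX⟩ := coords_nonneg hne
    have hok : ok X := by
      by_contra h
      apply hne
      unfold ff
      rw [if_neg h]
    have hC := one_lt_C0
    have e : ff X = (Zf X)⁻¹ ^ 2 * F (X 0 / Zf X) (X 1 / Zf X) := by
      unfold ff
      rw [if_pos hok]
    rw [e, abs_mul, abs_of_pos (by positivity : 0 < (Zf X)⁻¹ ^ 2)]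
    have hF := F_bound (x := X 0 / Zf X) (y := X 1 / Zf X)
      (div_nonneg (hX 0) hZ.le) (div_nonneg (hX 1) hZ.le)
    set D : ℝ := Zf X + X 0 + X 1 with hD
    have hD0 : 0 < D := by
      have := hX 0
      have := hX 1
      rw [hD]
      linarith
    have h1 : 1 + X 0 / Zf X + X 1 / Zf X = D * (Zf X)⁻¹ := by
      rw [hD]
      field_simp
    rw [h1, mul_pow] at hF
    have h2 : 1 ≤ (m + 1 : ℝ) * D := by
      have hs := sum_split X
      have hs2 : ∑ i : Fin m, X i.succ.succ ≤ m * Zf X := by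
        calc ∑ i : Fin m, X i.succ.succ ≤ ∑ _i : Fin m, Zf X :=
              Finset.sum_le_sum fun i _ => (hok.2 i).2
          _ = m * Zf X := by simp
      have hZs : Zf X = 1 - ∑ i, X i := rfl
      have hm : (0 : ℝ) ≤ m := by positivity
      have h3 : (m : ℝ) * Zf X ≤ m * D := by
        apply mul_le_mul_of_nonneg_left _ hm
        have := hX 0
        have := hX 1
        rw [hD]
        linarith
      nlinarith
    have h3 : 1 ≤ ((m : ℝ) + 1) ^ 2 * D ^ 2 := by
      rw [← mul_pow]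
      nlinarith
    calc (Zf X)⁻¹ ^ 2 * |F (X 0 / Zf X) (X 1 / Zf X)|
        = 1 * ((Zf X)⁻¹ ^ 2 * |F (X 0 / Zf X) (X 1 / Zf X)|) := by ring
      _ ≤ (((m : ℝ) + 1) ^ 2 * D ^ 2) * ((Zf X)⁻¹ ^ 2 * |F (X 0 / Zf X) (X 1 / Zf X)|) := by
          gcongr
      _ = ((m : ℝ) + 1) ^ 2 * (D ^ 2 * (Zf X)⁻¹ ^ 2 * |F (X 0 / Zf X) (X 1 / Zf X)|) := by ring
      _ ≤ ((m : ℝ) + 1) ^ 2 * (250000 * (2 + C0)) := by gcongr
      _ = MM m := by unfold MM; ring

theorem continuous_coord (i : Fin (m + 2)) : Continuous fun X : EE m => X i := by fun_prop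

theorem continuous_Zf : Continuous (Zf : EE m → ℝ) := by
  unfold Zf
  fun_prop

theorem measurable_ff : Measurable (ff : EE m → ℝ) := by
  unfold ff
  refine Measurable.ite ?_ ?_ measurable_const
  · have h1 : MeasurableSet {X : EE m | 0 < Zf X} :=
      measurableSet_lt measurable_const continuous_Zf.measurable
    have h2 : MeasurableSet {X : EE m | ∀ i : Fin m, 0 ≤ X i.succ.succ ∧ X i.succ.succ ≤ Zf X} := by
      rw [ofPred_forall]
      refine MeasurableSet.iInter fun i => ?_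
      exact (measurableSet_le measurable_const (continuous_coord _).measurable).inter
        (measurableSet_le (continuous_coord _).measurable continuous_Zf.measurable)
    exact h1.inter h2
  · have hZ : Measurable (Zf : EE m → ℝ) := continuous_Zf.measurable
    have h3 : Measurable fun X : EE m => (X 0 / Zf X, X 1 / Zf X) :=
      ((continuous_coord 0).measurable.div hZ).prodMk ((continuous_coord 1).measurable.div hZ)
    have h4 : Measurable fun X : EE m => F (X 0 / Zf X) (X 1 / Zf X) := by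
      have h6 := measurable_F.comp h3
      simp only [Function.comp_def] at h6
      exact h6
    have h5 : Measurable fun X : EE m => (Zf X)⁻¹ ^ 2 := (hZ.inv).pow_const 2
    exact h5.mul h4

theorem ff_not_ae_zero : ¬ ((ff : EE m → ℝ) =ᵐ[volume] 0) := by
  intro h
  set U : Set (EE m) := {X | 0 < Zf X ∧ ∀ i, 0 < X i ∧ X i < Zf X} with hU
  have hopen : IsOpen U := by
    have h1 : IsOpen {X : EE m | 0 < Zf X} := isOpen_lt continuous_const continuous_Zf
    have h2 : IsOpen {X : EE m | ∀ i, 0 < X i ∧ X i < Zf X} := by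
      rw [ofPred_forall]
      refine isOpen_iInter_of_finite fun i => ?_
      exact (isOpen_lt continuous_const (continuous_coord i)).inter
        (isOpen_lt (continuous_coord i) continuous_Zf)
    exact h1.inter h2
  have hne : U.Nonempty := by
    refine ⟨WithLp.toLp 2 fun _ => 1 / ((m : ℝ) + 4), ?_⟩
    have hZ : Zf (WithLp.toLp 2 (fun _ => 1 / ((m : ℝ) + 4)) : EE m) = 2 / ((m : ℝ) + 4) := by
      unfold Zf
      simp only [Finset.sum_const, Finset.card_univ, Fintype.card_fin, nsmul_eq_mul]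
      push_cast
      field_simp
      ring
    refine ⟨?_, fun i => ⟨?_, ?_⟩⟩
    · rw [hZ]
      positivity
    · show 0 < 1 / ((m : ℝ) + 4)
      positivity
    · rw [hZ]
      show 1 / ((m : ℝ) + 4) < 2 / ((m : ℝ) + 4)
      gcongr
      norm_num
  have hpos := hopen.measure_pos volume hne
  have hsub : U ⊆ {X | ¬ (ff X = (0 : EE m → ℝ) X)} := by
    intro X hX
    have hZ := hX.1
    have hok : ok X := ⟨hZ, fun i => ⟨(hX.2 _).1.le, (hX.2 _).2.le⟩⟩
    have e : ff X = (Zf X)⁻¹ ^ 2 * F (X 0 / Zf X) (X 1 / Zf X) := by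
      unfold ff
      rw [if_pos hok]
    have hF : F (X 0 / Zf X) (X 1 / Zf X) < 0 :=
      F_neg (div_pos (hX.2 0).1 hZ) ((div_lt_one hZ).mpr (hX.2 0).2)
        (div_pos (hX.2 1).1 hZ) ((div_lt_one hZ).mpr (hX.2 1).2)
    show ¬ (ff X = 0)
    rw [e]
    exact (mul_neg_of_pos_of_neg (by positivity) hF).ne
  have hzero : volume {X : EE m | ¬ (ff X = (0 : EE m → ℝ) X)} = 0 := ae_iff.mp h
  exact absurd (measure_mono_null hsub hzero) hpos.ne'

/-- The points `p_k`. -/
def pt (k : ℤ) : EE m :=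
  WithLp.toLp 2 (Fin.cons (1 / (1 + Real.exp (2 * Real.pi * k)))
    (Fin.cons (Real.exp (2 * Real.pi * k) / (1 + Real.exp (2 * Real.pi * k))) fun _ => 0))

theorem pt_zero (k : ℤ) : (pt k : EE m) 0 = 1 / (1 + Real.exp (2 * Real.pi * k)) := rfl

theorem pt_one (k : ℤ) : (pt k : EE m) 1 =
    Real.exp (2 * Real.pi * k) / (1 + Real.exp (2 * Real.pi * k)) := rfl

theorem pt_succ (k : ℤ) (i : Fin m) : (pt k : EE m) i.succ.succ = 0 := rfl

theorem pt_sum (k : ℤ) : ∑ i, (pt k : EE m) i = 1 := by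
  rw [sum_split, pt_zero, pt_one]
  simp only [pt_succ, Finset.sum_const_zero]
  have := Real.exp_pos (2 * Real.pi * k)
  field_simp
  ring

theorem pt_injective : Function.Injective (pt : ℤ → EE m) := by
  intro k l h
  have h0 : (pt k : EE m) 0 = (pt l : EE m) 0 := by rw [h]
  rw [pt_zero, pt_zero] at h0
  have hk := Real.exp_pos (2 * Real.pi * k)
  have hl := Real.exp_pos (2 * Real.pi * l)
  have h1 : Real.exp (2 * Real.pi * k) = Real.exp (2 * Real.pi * l) := by
    rw [one_div, one_div] at h0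
    have h3 := inv_injective h0
    linarith
  have h2 := Real.exp_injective h1
  have hpi : (2 * Real.pi) ≠ 0 := by positivity
  have h3 := mul_left_cancel₀ hpi h2
  exact_mod_cast h3

theorem subst_inv (h : ℝ → ℝ) :
    ∫ x in Ioi (0 : ℝ), x⁻¹ ^ 2 * h x⁻¹ = ∫ y in Ioi (0 : ℝ), h y := by
  rw [← integral_comp_rpow_Ioi h (p := -1) (by norm_num)]
  refine setIntegral_congr_fun measurableSet_Ioi fun x hx => ?_
  have hx0 : (0 : ℝ) < x := hx
  simp only [abs_neg, abs_one, one_mul, smul_eq_mul]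
  rw [Real.rpow_neg_one, show (-1 - 1 : ℝ) = -((2 : ℕ) : ℝ) by norm_num, Real.rpow_neg hx0.le,
    Real.rpow_natCast, inv_pow]

theorem ray_eq (k : ℤ) (u : EE m) {r : ℝ} :
    Zf (pt k + r • u) = r * -(∑ i, u i) := by
  unfold Zf
  have h : ∑ i, (pt k + r • u : EE m) i = ∑ i, (pt k : EE m) i + r * ∑ i, u i := by
    rw [Finset.mul_sum, ← Finset.sum_add_distrib]
    rfl
  rw [h, pt_sum]
  ring

theorem directed (k : ℤ) (u : EE m) :
    ∫ r in Ioi (0 : ℝ), ff (pt k + r • u) = 0 := by
  set σ : ℝ := -(∑ i, u i) with hσ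
  by_cases hpos : 0 < σ ∧ ∀ i : Fin m, 0 ≤ u i.succ.succ ∧ u i.succ.succ ≤ σ
  · obtain ⟨hσ0, hu⟩ := hpos
    set t := Real.exp (2 * Real.pi * k) with ht
    have htpos : 0 < t := Real.exp_pos _
    set c : ℝ := 1 / (1 + t) / σ with hc
    have hcpos : 0 < c := by rw [hc]; positivity
    have hxy : u 0 / σ ≤ 0 ∨ u 1 / σ ≤ 0 := by
      have hs := sum_split u
      have hnn : 0 ≤ ∑ i : Fin m, u i.succ.succ := Finset.sum_nonneg fun i _ => (hu i).1
      by_contra hcon
      push Not at hcon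
      have h0 : 0 < u 0 := by
        have := mul_pos hcon.1 hσ0
        rwa [div_mul_cancel₀ _ hσ0.ne'] at this
      have h1 : 0 < u 1 := by
        have := mul_pos hcon.2 hσ0
        rwa [div_mul_cancel₀ _ hσ0.ne'] at this
      linarith
    have e1 : ∀ r ∈ Ioi (0 : ℝ), ff (pt k + r • u) =
        (σ⁻¹ ^ 2) * (r⁻¹ ^ 2 * F (u 0 / σ + c * r⁻¹) (u 1 / σ + t * (c * r⁻¹))) := by
      intro r hr
      have hr0 : (0 : ℝ) < r := hr
      have hZ : Zf (pt k + r • u) = r * σ := by rw [ray_eq]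
      have hok : ok (pt k + r • u) := by
        refine ⟨by rw [hZ]; positivity, fun i => ?_⟩
        have e : (pt k + r • u : EE m) i.succ.succ = r * u i.succ.succ := by
          show (pt k : EE m) i.succ.succ + r * u i.succ.succ = _
          rw [pt_succ, zero_add]
        rw [e, hZ]
        exact ⟨mul_nonneg hr0.le (hu i).1, mul_le_mul_of_nonneg_left (hu i).2 hr0.le⟩
      unfold ff
      rw [if_pos hok, hZ]
      have e0 : (pt k + r • u : EE m) 0 / (r * σ) = u 0 / σ + c * r⁻¹ := by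
        show ((pt k : EE m) 0 + r * u 0) / (r * σ) = _
        rw [pt_zero, hc, ← ht]
        field_simp
        ring
      have e1 : (pt k + r • u : EE m) 1 / (r * σ) = u 1 / σ + t * (c * r⁻¹) := by
        show ((pt k : EE m) 1 + r * u 1) / (r * σ) = _
        rw [pt_one, hc, ← ht]
        field_simp
        ring
      rw [e0, e1, mul_inv]
      ring
    rw [setIntegral_congr_fun measurableSet_Ioi e1, integral_const_mul,
      subst_inv (fun w => F (u 0 / σ + c * w) (u 1 / σ + t * (c * w))),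
      integral_comp_mul_left_Ioi (fun s => F (u 0 / σ + s) (u 1 / σ + t * s)) 0 hcpos, mul_zero,
      F_line k hxy, smul_zero, mul_zero]
  · have e1 : ∀ r ∈ Ioi (0 : ℝ), ff (pt k + r • u) = 0 := by
      intro r hr
      have hr0 : (0 : ℝ) < r := hr
      have hZ : Zf (pt k + r • u) = r * σ := by rw [ray_eq]
      unfold ff
      rw [if_neg]
      intro hok
      apply hpos
      have hσ0 : 0 < σ := by
        have := hok.1
        rw [hZ] at this
        exact (mul_pos_iff_of_pos_left hr0).mp this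
      refine ⟨hσ0, fun i => ?_⟩
      have h := hok.2 i
      have e : (pt k + r • u : EE m) i.succ.succ = r * u i.succ.succ := by
        show (pt k : EE m) i.succ.succ + r * u i.succ.succ = _
        rw [pt_succ, zero_add]
      rw [e, hZ] at h
      exact ⟨nonneg_of_mul_nonneg_right h.1 hr0, le_of_mul_le_mul_left h.2 hr0⟩
    rw [setIntegral_congr_fun measurableSet_Ioi e1]
    simp

theorem ray_integrable (p u : EE m) (hu : ‖u‖ = 1) :
    IntegrableOn (fun r : ℝ => ff (p + r • u)) (Ioi 0) := by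
  have hmeas : Measurable fun r : ℝ => ff (p + r • u) :=
    measurable_ff.comp (by fun_prop : Continuous fun r : ℝ => p + r • u).measurable
  have hdom : IntegrableOn ((Ioc (0 : ℝ) (1 + ‖p‖)).indicator fun _ => MM m) (Ioi 0) := by
    apply Integrable.integrableOn
    rw [integrable_indicator_iff measurableSet_Ioc]
    exact integrableOn_const (by simp)
  refine Integrable.mono' hdom hmeas.aestronglyMeasurable ?_
  refine (ae_restrict_iff' measurableSet_Ioi).mpr (Eventually.of_forall fun r hr => ?_)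
  have hr0 : (0 : ℝ) < r := hr
  by_cases h : r ≤ 1 + ‖p‖
  · rw [indicator_of_mem (show r ∈ Ioc (0 : ℝ) (1 + ‖p‖) from ⟨hr0, h⟩), Real.norm_eq_abs]
    exact ff_bound _
  · rw [indicator_of_notMem (fun hh => h hh.2)]
    push Not at h
    have hn : 1 < ‖p + r • u‖ := by
      have h1 : ‖r • u‖ = r := by
        rw [norm_smul, hu, mul_one, Real.norm_eq_abs, abs_of_pos hr0]
      have h2 : ‖r • u‖ ≤ ‖p + r • u‖ + ‖p‖ := by
        calc ‖r • u‖ = ‖(p + r • u) - p‖ := by congr 1; abel
          _ ≤ ‖p + r • u‖ + ‖p‖ := norm_sub_le _ _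
      linarith
    rw [ff_support hn, norm_zero]

theorem main (n : ℕ) (hn : 2 ≤ n) :
    ∃ (f : EuclideanSpace ℝ (Fin n) → ℝ) (P : Set (EuclideanSpace ℝ (Fin n))),
      Measurable f ∧ (∃ M : ℝ, ∀ x, |f x| ≤ M) ∧ (∀ x, 1 < ‖x‖ → f x = 0) ∧
        ¬ (f =ᵐ[volume] 0) ∧ P.Infinite ∧
        ∀ p ∈ P, ∀ u : EuclideanSpace ℝ (Fin n), ‖u‖ = 1 →
          IntegrableOn (fun t : ℝ => f (p + t • u)) (Ioi 0) ∧
          ∫ t in Ioi (0 : ℝ), f (p + t • u) = 0 := by
  obtain ⟨m, rfl⟩ : ∃ m, n = m + 2 := ⟨n - 2, by omega⟩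
  refine ⟨ff, range pt, measurable_ff, ⟨MM m, ff_bound⟩, fun x hx => ff_support hx,
    ff_not_ae_zero, infinite_range_of_injective pt_injective, ?_⟩
  rintro p ⟨k, rfl⟩ u hu
  exact ⟨ray_integrable _ u hu, directed k u⟩

end

end Pool.Agent.Y327.XR
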