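import Pool.Agent.Y327.XR.G

/-!
# Line integrals of the building block
-/

namespace Pool.Agent.Y327.XR

open MeasureTheory Set Filter Topology

noncomputable section

/-- `T a b s = (s-a)_+ (s-b)_+ (cos (log (s-a) - log (s-b)) - C0)`. -/
def T (a b s : ℝ) : ℝ :=
  max (s - a) 0 * max (s - b) 0 * (Real.cos (Real.log (s - a) - Real.log (s - b)) - C0)

theorem T_symm (a b s : ℝ) : T a b s = T b a s := by
  unfold T
  rw [← Real.cos_neg (Real.log (s - a) - Real.log (s - b)), neg_sub]
  ring

theorem T_eq_zero {a b s : ℝ} (h : s ≤ max a b) : T a b s = 0 := by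
  unfold T
  rcases le_max_iff.mp h with h | h
  · rw [max_eq_right (by linarith : s - a ≤ 0)]; ring
  · rw [max_eq_right (by linarith : s - b ≤ 0)]; ring

theorem measurable_T (a b : ℝ) : Measurable (T a b) := by
  unfold T
  have h1 : Measurable (fun s : ℝ => Real.log (s - a)) :=
    Real.measurable_log.comp (measurable_id.sub_const a)
  have h2 : Measurable (fun s : ℝ => Real.log (s - b)) :=
    Real.measurable_log.comp (measurable_id.sub_const b)
  have h3 : Measurable (fun s : ℝ => Real.cos (Real.log (s - a) - Real.log (s - b))) :=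
    Real.measurable_cos.comp (h1.sub h2)
  exact ((((measurable_id.sub_const a).max measurable_const).mul
    ((measurable_id.sub_const b).max measurable_const)).mul (h3.sub_const C0))

theorem abs_T_le (a b s : ℝ) : |T a b s| ≤ |s - a| * |s - b| * (1 + |C0|) := by
  unfold T
  rw [abs_mul, abs_mul]
  have h1 : |max (s - a) 0| ≤ |s - a| := by
    rw [abs_of_nonneg (le_max_right _ _)]
    exact max_le (le_abs_self _) (abs_nonneg _)
  have h2 : |max (s - b) 0| ≤ |s - b| := by
    rw [abs_of_nonneg (le_max_right _ _)]
    exact max_le (le_abs_self _) (abs_nonneg _)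
  have h3 : |Real.cos (Real.log (s - a) - Real.log (s - b)) - C0| ≤ 1 + |C0| :=
    (abs_sub _ _).trans (by gcongr; exact Real.abs_cos_le_one _)
  gcongr

theorem intervalIntegrable_T (a b p q : ℝ) : IntervalIntegrable (T a b) volume p q := by
  have h : IntervalIntegrable (fun s => |s - a| * |s - b| * (1 + |C0|)) volume p q :=
    (by fun_prop : Continuous fun s : ℝ => |s - a| * |s - b| * (1 + |C0|)).intervalIntegrable p q
  refine h.mono_fun' (measurable_T a b).aestronglyMeasurable ?_
  exact Eventually.of_forall fun s => by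
    beta_reduce
    rw [Real.norm_eq_abs]
    exact abs_T_le a b s

/-- The polynomial part of the line integral. -/
def Pl (a b S : ℝ) : ℝ :=
  (1 - C0) * ((S - (a + b) / 2) ^ 3 / 3 - (S - (a + b) / 2) * (a - b) ^ 2 / 4) -
    (a - b) ^ 2 * (S - (a + b) / 2) / 2

theorem integrand_eq {d r : ℝ} (hd : 0 < d) (hr : 0 < r) :
    r * (r + d) * (Real.cos (Real.log r - Real.log (r + d)) - C0) =
      d ^ 2 * G (r / d) - d ^ 2 / 2 + (1 - C0) * (r ^ 2 + d * r) := by
  unfold G
  have h1 : r / d + 1 = (r + d) / d := by field_simp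
  have h2 : Real.log (r / d) - Real.log (r / d + 1) = Real.log r - Real.log (r + d) := by
    rw [h1, Real.log_div hr.ne' hd.ne', Real.log_div (by positivity) hd.ne']
    ring
  rw [h2]
  field_simp
  ring

theorem integral_T_of_lt {a b : ℝ} (hab : b < a) {S : ℝ} (hS : a < S) :
    ∫ s in a..S, T a b s =
      Pl a b S + (a - b) ^ 3 * ((∫ r in (0 : ℝ)..((S - a) / (a - b)), G r) - n0) := by
  have hd : 0 < a - b := by linarith
  have h1 : ∫ s in a..S, T a b s = ∫ r in (0 : ℝ)..(S - a), T a b (r + a) := by
    rw [intervalIntegral.integral_comp_add_right (fun s => T a b s) a]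
    simp
  have h2 : ∫ r in (0 : ℝ)..(S - a), T a b (r + a) =
      ∫ r in (0 : ℝ)..(S - a), ((a - b) ^ 2 * G (r / (a - b)) - (a - b) ^ 2 / 2 +
        (1 - C0) * (r ^ 2 + (a - b) * r)) := by
    refine intervalIntegral.integral_congr_ae (Eventually.of_forall fun r hr => ?_)
    rw [uIoc_of_le (by linarith)] at hr
    have hr0 : 0 < r := hr.1
    rw [← integrand_eq hd hr0]
    unfold T
    rw [show r + a - a = r by ring, show r + a - b = r + (a - b) by ring,
      max_eq_left hr0.le, max_eq_left (by linarith : 0 ≤ r + (a - b))]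
  have hG : IntervalIntegrable (fun r => (a - b) ^ 2 * G (r / (a - b))) volume 0 (S - a) := by
    apply IntervalIntegrable.const_mul
    have hb : IntervalIntegrable (fun _ : ℝ => (1 / 2 : ℝ)) volume 0 (S - a) :=
      intervalIntegrable_const
    refine hb.mono_fun' ?_ ?_
    · exact (measurable_G.comp (measurable_id.div_const _)).aestronglyMeasurable
    · refine (ae_restrict_iff' measurableSet_uIoc).mpr (Eventually.of_forall fun r hr => ?_)
      rw [uIoc_of_le (by linarith)] at hr
      have hr0 : 0 < r / (a - b) := div_pos hr.1 hd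
      beta_reduce
      rw [Real.norm_eq_abs, abs_of_nonneg (G_nonneg hr0)]
      exact G_le_half hr0
  have hc : IntervalIntegrable (fun _ : ℝ => (a - b) ^ 2 / 2) volume 0 (S - a) :=
    intervalIntegrable_const
  have hp : IntervalIntegrable (fun r : ℝ => (1 - C0) * (r ^ 2 + (a - b) * r)) volume 0 (S - a) :=
    (by fun_prop : Continuous fun r : ℝ => (1 - C0) * (r ^ 2 + (a - b) * r)).intervalIntegrable _ _
  have hGi : ∫ r in (0 : ℝ)..(S - a), (a - b) ^ 2 * G (r / (a - b)) =
      (a - b) ^ 3 * ∫ r in (0 : ℝ)..((S - a) / (a - b)), G r := by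
    rw [intervalIntegral.integral_const_mul,
      intervalIntegral.integral_comp_div (fun r => G r) hd.ne', zero_div, smul_eq_mul]
    ring
  have hpi : ∫ r in (0 : ℝ)..(S - a), (1 - C0) * (r ^ 2 + (a - b) * r) =
      (1 - C0) * ((S - a) ^ 3 / 3 + (a - b) * (S - a) ^ 2 / 2) := by
    rw [intervalIntegral.integral_const_mul, intervalIntegral.integral_add,
      intervalIntegral.integral_const_mul, integral_pow, integral_id]
    · push_cast
      ring
    · exact (by fun_prop : Continuous fun r : ℝ => r ^ 2).intervalIntegrable _ _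
    · exact (by fun_prop : Continuous fun r : ℝ => (a - b) * r).intervalIntegrable _ _
  rw [h1, h2, intervalIntegral.integral_add (hG.sub hc) hp, intervalIntegral.integral_sub hG hc,
    hGi, hpi, intervalIntegral.integral_const, smul_eq_mul]
  unfold Pl
  have hC : n0 = (C0 - 4) / 12 := by unfold C0; ring
  rw [hC]
  ring

theorem integral_T_of_eq {a S : ℝ} (hS : a < S) :
    ∫ s in a..S, T a a s = Pl a a S := by
  have h1 : ∫ s in a..S, T a a s = ∫ r in (0 : ℝ)..(S - a), T a a (r + a) := by
    rw [intervalIntegral.integral_comp_add_right (fun s => T a a s) a]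
    simp
  have h2 : ∫ r in (0 : ℝ)..(S - a), T a a (r + a) =
      ∫ r in (0 : ℝ)..(S - a), (1 - C0) * r ^ 2 := by
    refine intervalIntegral.integral_congr_ae (Eventually.of_forall fun r hr => ?_)
    rw [uIoc_of_le (by linarith)] at hr
    have hr0 : 0 < r := hr.1
    unfold T
    rw [show r + a - a = r by ring, max_eq_left hr0.le, sub_self, Real.cos_zero]
    ring
  rw [h1, h2, intervalIntegral.integral_const_mul, integral_pow]
  unfold Pl
  push_cast
  ring

/-- The line integral of `T` up to `S` is the polynomial `Pl` up to an error tending to `0`. -/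
theorem tendsto_T {a b : ℝ} (h0 : 0 ≤ max a b) :
    Tendsto (fun S => (∫ s in (0 : ℝ)..S, T a b s) - Pl a b S) atTop (𝓝 0) := by
  wlog hab : b ≤ a generalizing a b
  · have h := this (a := b) (b := a) (by rwa [max_comm]) (le_of_not_ge hab)
    refine h.congr fun S => ?_
    have e1 : ∫ s in (0 : ℝ)..S, T b a s = ∫ s in (0 : ℝ)..S, T a b s :=
      intervalIntegral.integral_congr fun s _ => T_symm b a s
    rw [e1]
    unfold Pl
    ring
  rw [max_eq_left hab] at h0
  have hz : ∫ s in (0 : ℝ)..a, T a b s = 0 := by
    rw [intervalIntegral.integral_congr (g := fun _ => (0 : ℝ))]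
    · simp
    · intro s hs
      rw [uIcc_of_le h0] at hs
      exact T_eq_zero (hs.2.trans (le_max_left _ _))
  have hsplit : ∀ S, ∫ s in (0 : ℝ)..S, T a b s = ∫ s in a..S, T a b s := by
    intro S
    rw [← intervalIntegral.integral_add_adjacent_intervals
      (intervalIntegrable_T a b 0 a) (intervalIntegrable_T a b a S), hz, zero_add]
  rcases hab.eq_or_lt with h | h
  · subst h
    refine tendsto_const_nhds.congr' ?_
    filter_upwards [eventually_gt_atTop b] with S hS
    rw [hsplit, integral_T_of_eq hS, sub_self]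
  · have hd : 0 < a - b := by linarith
    have ht : Tendsto (fun S => (a - b) ^ 3 *
        ((∫ r in (0 : ℝ)..((S - a) / (a - b)), G r) - n0)) atTop (𝓝 0) := by
      have h1 : Tendsto (fun S : ℝ => S - a) atTop atTop :=
        tendsto_atTop_add_const_right _ _ tendsto_id
      have h2 := ((tendsto_G hd).comp h1).sub_const n0
      have h3 := h2.const_mul ((a - b) ^ 3)
      simpa using h3
    refine ht.congr' ?_
    filter_upwards [eventually_gt_atTop a] with S hS
    rw [hsplit, integral_T_of_lt h hS]
    ring

end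

end Pool.Agent.Y327.XR
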